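import Pool.Agent.W254.HP.Prod
import Pool.Agent.W254.HP.Opt

/-!
# Exponents in a finite dimensional space for which a product of powers is algebraic

`P` is a finite dimensional space of complex numbers over the algebraic numbers which contains `1`,
`l_1, ..., l_n` are logarithms of algebraic numbers which are linearly independent over `ℚ`, and
`u_1, ..., u_k` are arbitrary complex numbers.  We bound the dimension of the space of all
`(p, q) ∈ P ^ n × P ^ k` with `∑ p_j l_j + ∑ q_i u_i ∈ Lt`.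
-/

set_option autoImplicit false

namespace Pool.Agent.TH577.PP

open Module Finset
open Pool.Agent.W254.HP
open Pool.Agent.H301R2.SSE (QB mem_QB Lt Lt_mul Lt_alg Lt_log Lt_one)

/-- the linear form `p ↦ ∑ p_j l_j` on `P ^ n` -/
noncomputable def lin (P : Submodule QB ℂ) {n : ℕ} (l : Fin n → ℂ) : (Fin n → P) →ₗ[QB] ℂ :=
  ∑ j, (LinearMap.mulRight QB (l j)).comp (P.subtype.comp (LinearMap.proj j))

theorem lin_apply (P : Submodule QB ℂ) {n : ℕ} (l : Fin n → ℂ) (p : Fin n → P) :
    lin P l p = ∑ j, (p j : ℂ) * l j := by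
  simp [lin]

section

variable (P : Submodule QB ℂ) [FiniteDimensional QB P] {n : ℕ} (l : Fin n → ℂ) (h1 : (1 : ℂ) ∈ P)

/-- the coordinates of an element of `P` -/
noncomputable def co (i : Fin (finrank QB P)) : P →ₗ[QB] QB := (Module.finBasis QB P).coord i

theorem co_sum (x : P) : ∑ i, (Module.finBasis QB P i : ℂ) * ((co P i x : QB) : ℂ) = (x : ℂ) := by
  have h := (Module.finBasis QB P).sum_repr x
  have h2 := congrArg (fun y : P => (y : ℂ)) h
  simp only [Submodule.coe_sum, Submodule.coe_smul] at h2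
  rw [← h2]
  apply Finset.sum_congr rfl
  intro i _
  rw [co, Basis.coord_apply, Algebra.smul_def, mul_comm]
  rfl

theorem co_ext {x y : P} (h : ∀ i, co P i x = co P i y) : x = y := by
  apply Subtype.ext
  rw [← co_sum P x, ← co_sum P y]
  simp only [h]

/-- the columns -/
noncomputable def Psi : ((Submodule.comap (lin P l) Lt) × (P ⊓ Lt : Submodule QB ℂ)) →ₗ[QB]
    (Fin (finrank QB P) → ℂ) :=
  LinearMap.pi fun i =>
    ((∑ j, (LinearMap.toSpanSingleton QB ℂ (l j)).comp ((co P i).comp (LinearMap.proj j)) -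
      (co P i ⟨1, h1⟩) • lin P l).comp (Submodule.subtype _)).comp (LinearMap.fst QB _ _) +
    ((LinearMap.toSpanSingleton QB ℂ 1).comp ((co P i).comp (Submodule.inclusion inf_le_left)) -
      (co P i ⟨1, h1⟩) • (Submodule.subtype _)).comp (LinearMap.snd QB _ _)

theorem Psi_apply (p : Submodule.comap (lin P l) Lt) (z : (P ⊓ Lt : Submodule QB ℂ))
    (i : Fin (finrank QB P)) :
    Psi P l h1 (p, z) i = ∑ j, ((co P i ((p : Fin n → P) j) : QB) : ℂ) * l j -
      ((co P i ⟨1, h1⟩ : QB) : ℂ) * lin P l p +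
      (((co P i ⟨z, z.2.1⟩ : QB) : ℂ) - ((co P i ⟨1, h1⟩ : QB) : ℂ) * z) := by
  have e : ∀ (a : QB) (x : ℂ), a • x = (a : ℂ) * x := fun a x => by
    rw [Algebra.smul_def]; rfl
  have e2 : Submodule.inclusion (inf_le_left : P ⊓ Lt ≤ P) z = ⟨z, z.2.1⟩ := rfl
  simp only [Psi, LinearMap.pi_apply, LinearMap.add_apply, LinearMap.comp_apply,
    LinearMap.sub_apply, LinearMap.sum_apply, LinearMap.toSpanSingleton_apply,
    LinearMap.smul_apply, LinearMap.fst_apply, LinearMap.snd_apply, LinearMap.proj_apply,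
    Submodule.subtype_apply, e, e2, mul_one]

theorem Psi_mem (hl : ∀ j, IsAlgebraic ℚ (Complex.exp (l j)))
    (p : Submodule.comap (lin P l) Lt) (z : (P ⊓ Lt : Submodule QB ℂ))
    (i : Fin (finrank QB P)) : Psi P l h1 (p, z) i ∈ Lt := by
  rw [Psi_apply]
  have a : ∀ x : QB, IsAlgebraic ℚ (x : ℂ) := fun x => mem_QB.mp x.2
  refine Lt.add_mem (Lt.sub_mem (Submodule.sum_mem _ fun j _ => Lt_mul (a _) (Lt_log (hl j)))
    (Lt_mul (a _) p.2)) (Lt.sub_mem (Lt_alg (a _)) (Lt_mul (a _) z.2.2))

theorem Psi_rel (p : Submodule.comap (lin P l) Lt) (z : (P ⊓ Lt : Submodule QB ℂ)) :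
    ∑ i, (Module.finBasis QB P i : ℂ) * Psi P l h1 (p, z) i = 0 := by
  simp only [Psi_apply, mul_add, mul_sub, Finset.sum_add_distrib, Finset.sum_sub_distrib]
  have k1 : ∑ i, (Module.finBasis QB P i : ℂ) * ∑ j, ((co P i ((p : Fin n → P) j) : QB) : ℂ) * l j
      = lin P l p := by
    simp only [Finset.mul_sum]
    rw [Finset.sum_comm, lin_apply]
    apply Finset.sum_congr rfl
    intro j _
    simp only [← mul_assoc]
    rw [← Finset.sum_mul, co_sum]
  have k2 : ∀ y : ℂ, ∑ i, (Module.finBasis QB P i : ℂ) * (((co P i ⟨1, h1⟩ : QB) : ℂ) * y) = y := by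
    intro y
    simp only [← mul_assoc]
    rw [← Finset.sum_mul, co_sum]
    simp
  rw [k1, k2, k2, co_sum]
  simp

theorem range_le (hl : ∀ j, IsAlgebraic ℚ (Complex.exp (l j))) :
    finrank QB (LinearMap.range (Psi P l h1)) ≤ finrank QB P * (finrank QB P - 1) := by
  let B := Module.finBasis QB (LinearMap.range (Psi P l h1))
  refine hyperplane (finrank QB P) _ (fun i => (Module.finBasis QB P i : ℂ))
    (fun i m => (B m : Fin (finrank QB P) → ℂ) i) ?_ ?_ ?_ ?_
  · exact (Module.finBasis QB P).linearIndependent.map' P.subtype P.ker_subtype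
  · intro i m
    obtain ⟨⟨p, z⟩, hpz⟩ := (B m).2
    rw [← hpz]
    exact Psi_mem P l h1 hl p z i
  · intro m
    obtain ⟨⟨p, z⟩, hpz⟩ := (B m).2
    rw [← hpz]
    exact Psi_rel P l h1 p z
  · exact B.linearIndependent.map' (Submodule.subtype _) (Submodule.ker_subtype _)


/-- evaluation of the `i`-th coordinate -/
noncomputable def kap (i : Fin (finrank QB P)) :
    ((Submodule.comap (lin P l) Lt) × (P ⊓ Lt : Submodule QB ℂ)) →ₗ[QB] ((Fin n → QB) × QB) :=
  LinearMap.prod
    (LinearMap.pi fun j => (co P i).comp ((LinearMap.proj j).comp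
      ((Submodule.subtype _).comp (LinearMap.fst QB _ _))))
    ((co P i).comp ((Submodule.inclusion inf_le_left).comp (LinearMap.snd QB _ _)))

theorem kap_apply (i : Fin (finrank QB P)) (p : Submodule.comap (lin P l) Lt)
    (z : (P ⊓ Lt : Submodule QB ℂ)) :
    kap P l i (p, z) = (fun j => co P i ((p : Fin n → P) j), co P i ⟨z, z.2.1⟩) := rfl

theorem ker_le (hl : ∀ j, IsAlgebraic ℚ (Complex.exp (l j))) (hli : LinearIndependent ℚ l) :
    finrank QB (LinearMap.ker (Psi P l h1)) ≤ n + 1 := by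
  classical
  have hB := opt_indep l hl hli
  rw [Fintype.linearIndependent_iff] at hB
  -- a coordinate of `1` which is not zero
  obtain ⟨i₀, hi₀⟩ : ∃ i, co P i ⟨1, h1⟩ ≠ 0 := by
    by_contra hcon
    push Not at hcon
    have h2 := co_ext P (x := ⟨1, h1⟩) (y := 0) (fun i => by rw [hcon i, map_zero])
    have h3 := congrArg (fun y : P => (y : ℂ)) h2
    simp at h3
  have hinj : Function.Injective ((kap P l i₀).domRestrict (LinearMap.ker (Psi P l h1))) := by
    rw [injective_iff_map_eq_zero]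
    rintro ⟨⟨p, z⟩, hpz⟩ h0
    have h0' : kap P l i₀ (p, z) = 0 := h0
    rw [kap_apply, Prod.mk_eq_zero] at h0'
    obtain ⟨h01, h02⟩ := h0'
    rw [LinearMap.mem_ker] at hpz
    have hi : ∀ i, ∑ j, ((co P i ((p : Fin n → P) j) : QB) : ℂ) * l j +
        ((co P i ⟨z, z.2.1⟩ : QB) : ℂ) = ((co P i ⟨1, h1⟩ : QB) : ℂ) * (lin P l p + z) := by
      intro i
      have h3 := congrFun hpz i
      rw [Psi_apply, Pi.zero_apply] at h3
      linear_combination h3
    have hmu : lin P l p + z = 0 := by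
      have h3 := hi i₀
      have h4 : ∀ j, co P i₀ ((p : Fin n → P) j) = 0 := fun j => congrFun h01 j
      simp only [h4, h02, ZeroMemClass.coe_zero, zero_mul, Finset.sum_const_zero, add_zero] at h3
      rcases mul_eq_zero.mp h3.symm with h5 | h5
      · exact absurd (Subtype.ext h5) hi₀
      · exact h5
    have hz : ∀ i, (∀ j, co P i ((p : Fin n → P) j) = 0) ∧ co P i ⟨z, z.2.1⟩ = 0 := by
      intro i
      have h3 := hi i
      rw [hmu, mul_zero] at h3
      have h4 := hB (fun o => o.elim (co P i ⟨z, z.2.1⟩) (fun j => co P i ((p : Fin n → P) j))) (by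
        rw [Fintype.sum_option]
        simp only [Option.elim_none, Option.elim_some, Algebra.smul_def]
        rw [mul_one, add_comm]
        exact h3)
      exact ⟨fun j => h4 (some j), h4 none⟩
    have hp0 : (p : Fin n → P) = 0 := by
      funext j
      refine co_ext P (fun i => ?_)
      rw [(hz i).1 j, Pi.zero_apply, map_zero]
    have hz0 : (⟨z, z.2.1⟩ : P) = 0 := co_ext P (fun i => by rw [(hz i).2, map_zero])
    apply Subtype.ext
    refine Prod.ext (Subtype.ext hp0) (Subtype.ext ?_)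
    exact congrArg (fun y : P => (y : ℂ)) hz0
  have h2 := LinearMap.finrank_le_finrank_of_injective hinj
  rw [Module.finrank_prod, Module.finrank_fintype_fun_eq_card, Fintype.card_fin,
    Module.finrank_self] at h2
  exact h2

/-- the case without the `u_i` -/
theorem core (hl : ∀ j, IsAlgebraic ℚ (Complex.exp (l j))) (hli : LinearIndependent ℚ l)
    (h1 : (1 : ℂ) ∈ P) :
    finrank QB (Submodule.comap (lin P l) Lt) + finrank QB (P ⊓ Lt : Submodule QB ℂ) ≤
      n + finrank QB P * (finrank QB P - 1) + 1 := by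
  have h := LinearMap.finrank_range_add_finrank_ker (Psi P l h1)
  have : FiniteDimensional QB (P ⊓ Lt : Submodule QB ℂ) := Submodule.finiteDimensional_inf_left _ _
  rw [Module.finrank_prod] at h
  have h2 := range_le P l h1 hl
  have h3 := ker_le P l h1 hl hli
  omega

end

/-- the linear form `(p, q) ↦ ∑ p_j l_j + ∑ q_i u_i` -/
noncomputable def lin2 (P : Submodule QB ℂ) {n k : ℕ} (l : Fin n → ℂ) (u : Fin k → ℂ) :
    ((Fin n → P) × (Fin k → P)) →ₗ[QB] ℂ :=
  (lin P l).comp (LinearMap.fst QB _ _) + (lin P u).comp (LinearMap.snd QB _ _)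

theorem lin2_apply (P : Submodule QB ℂ) {n k : ℕ} (l : Fin n → ℂ) (u : Fin k → ℂ)
    (x : (Fin n → P) × (Fin k → P)) :
    lin2 P l u x = ∑ j, (x.1 j : ℂ) * l j + ∑ i, (x.2 i : ℂ) * u i := by
  rw [lin2, LinearMap.add_apply, LinearMap.comp_apply, LinearMap.comp_apply, lin_apply, lin_apply]
  rfl

/-- **Main theorem.** -/
theorem main (P : Submodule QB ℂ) [FiniteDimensional QB P] (h1 : (1 : ℂ) ∈ P) {n k : ℕ}
    (l : Fin n → ℂ) (hl : ∀ j, IsAlgebraic ℚ (Complex.exp (l j))) (hli : LinearIndependent ℚ l)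
    (u : Fin k → ℂ) :
    finrank QB (Submodule.comap (lin2 P l u) Lt) + finrank QB (P ⊓ Lt : Submodule QB ℂ) ≤
      n + k * finrank QB P + finrank QB P * (finrank QB P - 1) + 1 := by
  let N := Submodule.comap (lin2 P l u) Lt
  let pr : N →ₗ[QB] (Fin k → P) := (LinearMap.snd QB _ _).comp N.subtype
  have h := LinearMap.finrank_range_add_finrank_ker pr
  have h2 : finrank QB (LinearMap.range pr) ≤ k * finrank QB P := by
    refine (Submodule.finrank_le _).trans ?_
    rw [Module.finrank_pi_fintype]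
    simp
  let g : LinearMap.ker pr →ₗ[QB] Submodule.comap (lin P l) Lt :=
    LinearMap.codRestrict _ ((LinearMap.fst QB _ _).comp (N.subtype.comp (Submodule.subtype _))) (by
      rintro ⟨⟨⟨p, q⟩, hN⟩, hq⟩
      have hq' : q = 0 := hq
      subst hq'
      have h3 : lin2 P l u (p, 0) ∈ Lt := hN
      rw [lin2, LinearMap.add_apply, LinearMap.comp_apply, LinearMap.comp_apply] at h3
      simpa using h3)
  have hg : Function.Injective g := by
    rw [injective_iff_map_eq_zero]
    rintro ⟨⟨⟨p, q⟩, hN⟩, hq⟩ h0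
    have hq' : q = 0 := hq
    have hp : p = 0 := congrArg Subtype.val h0
    subst hq'; subst hp
    rfl
  have h3 := LinearMap.finrank_le_finrank_of_injective hg
  have h4 := core P l hl hli h1
  have h5 : finrank QB (Submodule.comap (lin2 P l u) Lt) = finrank QB N := rfl
  omega

end Pool.Agent.TH577.PP
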