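import Pool.Agent.TH577.PP.Core
import Pool.Agent.H340R2.LW

/-!
# Polynomials in `π` as exponents
-/

set_option autoImplicit false

namespace Pool.Agent.TH577.PP

open Module Finset Polynomial
open Pool.Agent.H301R2.SSE (QB mem_QB Lt Lt_mul Lt_alg Lt_log Lt_one)

theorem pi_tr : Transcendental ℚ ((Real.pi : ℝ) : ℂ) :=
  Pool.Agent.H340R2.LW.transcendental_pi_complex

theorem tr_QB {t : ℂ} (ht : Transcendental ℚ t) : Transcendental QB t := by
  intro h
  have : Algebra.IsAlgebraic ℚ QB := algebraicClosure.isAlgebraic ℚ ℂ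
  exact ht (h.restrictScalars ℚ)

theorem pi_mem_Lt : ((Real.pi : ℝ) : ℂ) ∈ Lt := by
  have h1 : (Complex.I * Real.pi : ℂ) ∈ Lt := by
    apply Lt_log
    rw [mul_comm, Complex.exp_pi_mul_I]
    exact isAlgebraic_one.neg
  have h2 : IsAlgebraic ℚ (-Complex.I) := by
    apply IsAlgebraic.neg
    refine ⟨X ^ 2 + 1, ?_, by simp⟩
    intro h
    have := congrArg (Polynomial.eval 0) h
    simp at this
  have h3 := Lt_mul h2 h1
  have h4 : -Complex.I * (Complex.I * Real.pi) = (Real.pi : ℂ) := by
    rw [← mul_assoc, neg_mul, Complex.I_mul_I]; simp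
  rwa [h4] at h3

/-- values at `t` of the polynomials of degree at most `D` with algebraic coefficients -/
noncomputable def PD (t : ℂ) (D : ℕ) : Submodule QB ℂ :=
  (degreeLT QB (D + 1)).map (aeval t).toLinearMap

noncomputable instance (D : ℕ) : FiniteDimensional QB (degreeLT QB (D + 1)) :=
  Module.Finite.equiv (degreeLTEquiv QB (D + 1)).symm

noncomputable instance (t : ℂ) (D : ℕ) : FiniteDimensional QB (PD t D) := by
  unfold PD; infer_instance

theorem finrank_PD_le (t : ℂ) (D : ℕ) : finrank QB (PD t D) ≤ D + 1 := by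
  refine (Submodule.finrank_map_le _ _).trans ?_
  rw [(degreeLTEquiv QB (D + 1)).finrank_eq]
  simp

theorem mem_PD (t : ℂ) {D : ℕ} {p : QB[X]} (hp : p.natDegree ≤ D) : aeval t p ∈ PD t D := by
  refine ⟨p, ?_, rfl⟩
  rw [SetLike.mem_coe, mem_degreeLT]
  exact lt_of_le_of_lt degree_le_natDegree (by exact_mod_cast Nat.lt_succ_of_le hp)

theorem one_mem_PD (t : ℂ) (D : ℕ) : (1 : ℂ) ∈ PD t D := by
  have h := mem_PD t (D := D) (p := 1) (by simp)
  simpa using h

theorem self_mem_PD (t : ℂ) {D : ℕ} (hD : 1 ≤ D) : t ∈ PD t D := by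
  have h := mem_PD t (D := D) (p := X) (natDegree_X_le.trans hD)
  simpa using h

theorem two_le {t : ℂ} (ht : Transcendental ℚ t) (htL : t ∈ Lt) {D : ℕ} (hD : 1 ≤ D) :
    2 ≤ finrank QB (PD t D ⊓ Lt : Submodule QB ℂ) := by
  have : FiniteDimensional QB (PD t D ⊓ Lt : Submodule QB ℂ) :=
    Submodule.finiteDimensional_inf_left _ _
  let v : Fin 2 → (PD t D ⊓ Lt : Submodule QB ℂ) :=
    ![⟨1, one_mem_PD t D, Lt_one⟩, ⟨t, self_mem_PD t hD, htL⟩]
  have hv : LinearIndependent QB v := by
    rw [LinearIndependent.pair_iff]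
    intro a b hab
    have h1 := congrArg (fun y : (PD t D ⊓ Lt : Submodule QB ℂ) => (y : ℂ)) hab
    simp only [Submodule.coe_add, Submodule.coe_smul, Algebra.smul_def, mul_one,
      Submodule.coe_zero] at h1
    have hb : b = 0 := by
      by_contra hb
      apply tr_QB ht
      refine ⟨C a + C b * X, ?_, ?_⟩
      · intro h
        have := congrArg (fun q => q.coeff 1) h
        simp at this
        exact hb this
      · simpa using h1
    refine ⟨?_, hb⟩
    rw [hb, map_zero, zero_mul, add_zero] at h1
    exact Subtype.ext h1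
  have h := hv.fintype_card_le_finrank
  simpa using h

/-- bound for vectors of polynomials -/
theorem vec_bound {t : ℂ} (ht : Transcendental ℚ t) (htL : t ∈ Lt) {D : ℕ} (hD : 1 ≤ D) {n k : ℕ}
    (l : Fin n → ℂ) (hl : ∀ j, IsAlgebraic ℚ (Complex.exp (l j))) (hli : LinearIndependent ℚ l)
    (u : Fin k → ℂ) {ι : Type} [Fintype ι] (F : ι → (Fin n → QB[X]) × (Fin k → QB[X]))
    (hF : LinearIndependent QB F)
    (hF1 : ∀ s j, ((F s).1 j).natDegree ≤ D) (hF2 : ∀ s i, ((F s).2 i).natDegree ≤ D)
    (h : ∀ s, ∑ j, aeval t ((F s).1 j) * l j + ∑ i, aeval t ((F s).2 i) * u i ∈ Lt) :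
    Fintype.card ι + 1 ≤ n + k * (D + 1) + (D + 1) * D := by
  have hm := main (PD t D) (one_mem_PD t D) l hl hli u
  have h2 := two_le ht htL hD
  have h3 := finrank_PD_le t D
  let G : ι → Submodule.comap (lin2 (PD t D) l u) Lt := fun s =>
    ⟨(fun j => ⟨aeval t ((F s).1 j), mem_PD t (hF1 s j)⟩,
      fun i => ⟨aeval t ((F s).2 i), mem_PD t (hF2 s i)⟩), by
        rw [Submodule.mem_comap, lin2_apply]
        exact h s⟩
  have hG : LinearIndependent QB G := by
    rw [Fintype.linearIndependent_iff] at hF ⊢
    intro g hg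
    refine hF g ?_
    have hinj := transcendental_iff_injective.mp (tr_QB ht)
    have e1 : ∀ j, ∑ s, g s • (F s).1 j = 0 := by
      intro j
      apply hinj
      rw [map_zero, map_sum]
      have h4 := congrArg (fun y : Submodule.comap (lin2 (PD t D) l u) Lt =>
        (((y : (Fin n → PD t D) × (Fin k → PD t D)).1 j : PD t D) : ℂ)) hg
      simp only [Submodule.coe_sum, Submodule.coe_smul, Prod.fst_sum, Prod.smul_fst,
        Finset.sum_apply, Pi.smul_apply, Submodule.coe_zero, Prod.fst_zero, Pi.zero_apply] at h4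
      rw [← h4]
      apply Finset.sum_congr rfl
      intro s _
      rw [map_smul]
    have e2 : ∀ i, ∑ s, g s • (F s).2 i = 0 := by
      intro i
      apply hinj
      rw [map_zero, map_sum]
      have h4 := congrArg (fun y : Submodule.comap (lin2 (PD t D) l u) Lt =>
        (((y : (Fin n → PD t D) × (Fin k → PD t D)).2 i : PD t D) : ℂ)) hg
      simp only [Submodule.coe_sum, Submodule.coe_smul, Prod.snd_sum, Prod.smul_snd,
        Finset.sum_apply, Pi.smul_apply, Submodule.coe_zero, Prod.snd_zero, Pi.zero_apply] at h4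
      rw [← h4]
      apply Finset.sum_congr rfl
      intro s _
      rw [map_smul]
    refine Prod.ext ?_ ?_
    · funext j
      rw [Prod.fst_sum, Finset.sum_apply]
      simpa using e1 j
    · funext i
      rw [Prod.snd_sum, Finset.sum_apply]
      simpa using e2 i
  have h4 := hG.fintype_card_le_finrank
  obtain ⟨δ, hδ⟩ : ∃ δ, δ = finrank QB (PD t D) := ⟨_, rfl⟩
  rw [← hδ] at hm h3
  have h5 : δ * (δ - 1) ≤ (D + 1) * D := Nat.mul_le_mul h3 (by omega)
  have h6 : k * δ ≤ k * (D + 1) := Nat.mul_le_mul_left _ h3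
  omega

/-- the constant `1` at the index `j` and a polynomial at the index `j` -/
theorem family_bound {t : ℂ} (ht : Transcendental ℚ t) (htL : t ∈ Lt) {D : ℕ} (hD : 1 ≤ D) {r : ℕ}
    (l : Fin r → ℂ) (hl : ∀ j, IsAlgebraic ℚ (Complex.exp (l j))) (hli : LinearIndependent ℚ l)
    (u : ℂ) (m : Fin r → QB) (Q : Fin r → QB[X]) (hQ1 : ∀ j, 1 ≤ (Q j).natDegree)
    (hQ2 : ∀ j, (Q j).natDegree ≤ D)
    (h : ∀ j, aeval t (Q j) * (l j + (m j : ℂ) * u) ∈ Lt) (e : ℕ) (he : e ≤ 1)
    (hu : e = 1 → t * u ∈ Lt) : r + e + 1 ≤ (D + 1) ^ 2 := by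
  classical
  let F : (Fin r ⊕ Fin r) ⊕ Fin e → (Fin r → QB[X]) × (Fin 1 → QB[X]) := fun s =>
    Sum.elim (Sum.elim (fun j => (Pi.single j (Q j), fun _ => C (m j) * Q j))
      (fun j => (Pi.single j 1, 0))) (fun _ => (0, fun _ => X)) s
  have hF : LinearIndependent QB F := by
    rw [Fintype.linearIndependent_iff]
    intro g hg
    rw [Fintype.sum_sum_type, Fintype.sum_sum_type] at hg
    simp only [F, Sum.elim_inl, Sum.elim_inr] at hg
    have h1 : ∀ j, g (Sum.inl (Sum.inl j)) • Q j + g (Sum.inl (Sum.inr j)) • (1 : QB[X]) = 0 := by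
      intro j
      have h2 := congrFun (congrArg Prod.fst hg) j
      simp only [Prod.fst_add, Prod.fst_sum, Prod.smul_fst, Pi.add_apply, Finset.sum_apply,
        Pi.smul_apply, Prod.fst_zero, Pi.zero_apply, smul_zero, Finset.sum_const_zero,
        add_zero] at h2
      rw [Finset.sum_eq_single j, Finset.sum_eq_single j, Pi.single_eq_same, Pi.single_eq_same] at h2
      · exact h2
      · intro i _ hij
        rw [Pi.single_eq_of_ne (Ne.symm hij), smul_zero]
      · intro hj; exact absurd (Finset.mem_univ j) hj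
      · intro i _ hij
        rw [Pi.single_eq_of_ne (Ne.symm hij), smul_zero]
      · intro hj; exact absurd (Finset.mem_univ j) hj
    have h2 : ∀ j, g (Sum.inl (Sum.inl j)) = 0 := by
      intro j
      have h3 := congrArg (fun q => q.coeff (Q j).natDegree) (h1 j)
      simp only [coeff_add, coeff_smul, coeff_natDegree, coeff_zero, smul_eq_mul] at h3
      rw [coeff_one, if_neg (by have := hQ1 j; omega), mul_zero, add_zero] at h3
      rcases mul_eq_zero.mp h3 with h4 | h4
      · exact h4
      · exfalso
        rw [leadingCoeff_eq_zero] at h4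
        have := hQ1 j
        rw [h4, natDegree_zero] at this
        omega
    have h3 : ∀ j, g (Sum.inl (Sum.inr j)) = 0 := by
      intro j
      have h4 := h1 j
      rw [h2 j, zero_smul, zero_add] at h4
      have h5 := congrArg (fun q => q.coeff 0) h4
      simpa using h5
    have h4 : ∀ j, g (Sum.inr j) = 0 := by
      intro j
      have h5 := congrFun (congrArg Prod.snd hg) 0
      simp only [h2, h3, zero_smul, Finset.sum_const_zero, zero_add] at h5
      rw [Prod.snd_sum, Finset.sum_apply] at h5
      have h6 : ∀ i : Fin e, i = j := fun i => Fin.ext (by have := i.2; have := j.2; omega)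
      rw [Finset.sum_eq_single j (fun i _ hij => absurd (h6 i) hij)
        (fun hj => absurd (Finset.mem_univ j) hj)] at h5
      have h7 := congrArg (fun q : QB[X] => q.coeff 1) h5
      simpa using h7
    rintro ((j | j) | j)
    · exact h2 j
    · exact h3 j
    · exact h4 j
  have hb := vec_bound ht htL hD l hl hli (fun _ : Fin 1 => u) F hF ?_ ?_ ?_
  · rw [Fintype.card_sum, Fintype.card_sum, Fintype.card_fin, Fintype.card_fin] at hb
    have h9 : (D + 1) ^ 2 = (D + 1) + (D + 1) * D := by ring
    omega
  · rintro ((j | j) | j) i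
    · simp only [F, Sum.elim_inl]
      rcases eq_or_ne i j with rfl | hij
      · rw [Pi.single_eq_same]; exact hQ2 i
      · rw [Pi.single_eq_of_ne hij]; simp
    · simp only [F, Sum.elim_inl, Sum.elim_inr]
      rcases eq_or_ne i j with rfl | hij
      · rw [Pi.single_eq_same]; simp
      · rw [Pi.single_eq_of_ne hij]; simp
    · simp [F]
  · rintro ((j | j) | j) i
    · simp only [F, Sum.elim_inl]
      exact (natDegree_C_mul_le _ _).trans (hQ2 j)
    · simp [F]
    · simp only [F, Sum.elim_inr]
      exact natDegree_X_le.trans hD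
  · rintro ((j | j) | j)
    · simp only [F, Sum.elim_inl, Fin.sum_univ_one, map_mul, aeval_C]
      rw [Finset.sum_eq_single j, Pi.single_eq_same]
      · have h5 := h j
        have h6 : aeval t (Q j) * l j + (algebraMap QB ℂ) (m j) * aeval t (Q j) * u =
            aeval t (Q j) * (l j + (m j : ℂ) * u) := by
          rw [IntermediateField.algebraMap_apply]; ring
        rw [h6]; exact h5
      · intro i _ hij
        rw [Pi.single_eq_of_ne hij, map_zero, zero_mul]
      · intro hj; exact absurd (Finset.mem_univ j) hj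
    · simp only [F, Sum.elim_inl, Sum.elim_inr, Fin.sum_univ_one]
      rw [Finset.sum_eq_single j, Pi.single_eq_same]
      · simpa using Lt_log (hl j)
      · intro i _ hij
        rw [Pi.single_eq_of_ne hij, map_zero, zero_mul]
      · intro hj; exact absurd (Finset.mem_univ j) hj
    · simp only [F, Sum.elim_inr, Fin.sum_univ_one, Pi.zero_apply, map_zero, zero_mul,
        Finset.sum_const_zero, zero_add, aeval_X]
      exact hu (by have := j.2; omega)

/-- two multiplicatively independent numbers and one exponent of degree one -/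
theorem two_logs {t : ℂ} (ht : Transcendental ℚ t) (htL : t ∈ Lt)
    (l : Fin 2 → ℂ) (hl : ∀ j, IsAlgebraic ℚ (Complex.exp (l j))) (hli : LinearIndependent ℚ l)
    (al be : QB) (hal : al ≠ 0) (h : ∀ j, ((al : ℂ) * t + be) * l j ∈ Lt) : False := by
  classical
  let F : Fin 2 ⊕ Fin 2 → (Fin 2 → QB[X]) × (Fin 0 → QB[X]) := fun s =>
    Sum.elim (fun j => (Pi.single j (C al * X + C be), 0)) (fun j => (Pi.single j 1, 0)) s
  have hF : LinearIndependent QB F := by
    rw [Fintype.linearIndependent_iff]
    intro g hg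
    rw [Fintype.sum_sum_type] at hg
    simp only [F, Sum.elim_inl, Sum.elim_inr] at hg
    have h1 : ∀ j, g (Sum.inl j) • (C al * X + C be) + g (Sum.inr j) • (1 : QB[X]) = 0 := by
      intro j
      have h2 := congrFun (congrArg Prod.fst hg) j
      simp only [Prod.fst_add, Prod.fst_sum, Prod.smul_fst, Pi.add_apply, Finset.sum_apply,
        Pi.smul_apply, Prod.fst_zero, Pi.zero_apply] at h2
      rw [Finset.sum_eq_single j, Finset.sum_eq_single j, Pi.single_eq_same, Pi.single_eq_same] at h2
      · exact h2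
      · intro i _ hij
        rw [Pi.single_eq_of_ne (Ne.symm hij), smul_zero]
      · intro hj; exact absurd (Finset.mem_univ j) hj
      · intro i _ hij
        rw [Pi.single_eq_of_ne (Ne.symm hij), smul_zero]
      · intro hj; exact absurd (Finset.mem_univ j) hj
    have h2 : ∀ j, g (Sum.inl j) = 0 := by
      intro j
      have h3 := congrArg (fun q => q.coeff 1) (h1 j)
      simp [coeff_one, coeff_C] at h3
      rcases h3 with h3 | h3
      · exact h3
      · exact absurd h3 hal
    have h3 : ∀ j, g (Sum.inr j) = 0 := by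
      intro j
      have h4 := h1 j
      rw [h2 j, zero_smul, zero_add] at h4
      have h5 := congrArg (fun q => q.coeff 0) h4
      simpa using h5
    rintro (j | j)
    · exact h2 j
    · exact h3 j
  have hb := vec_bound ht htL le_rfl l hl hli (fun i : Fin 0 => (i.elim0 : ℂ)) F hF ?_
    (fun s i => i.elim0) ?_
  · rw [Fintype.card_sum, Fintype.card_fin] at hb
    omega
  · rintro (j | j) i
    · simp only [F, Sum.elim_inl]
      rcases eq_or_ne i j with rfl | hij
      · rw [Pi.single_eq_same]
        compute_degree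
      · rw [Pi.single_eq_of_ne hij]; simp
    · simp only [F, Sum.elim_inr]
      rcases eq_or_ne i j with rfl | hij
      · rw [Pi.single_eq_same]; simp
      · rw [Pi.single_eq_of_ne hij]; simp
  · rintro (j | j)
    · simp only [F, Sum.elim_inl, Finset.univ_eq_empty, Finset.sum_empty, add_zero]
      rw [Finset.sum_eq_single j, Pi.single_eq_same]
      · have h5 := h j
        simp only [map_add, map_mul, aeval_C, aeval_X]
        exact h5
      · intro i _ hij
        rw [Pi.single_eq_of_ne hij, map_zero, zero_mul]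
      · intro hj; exact absurd (Finset.mem_univ j) hj
    · simp only [F, Sum.elim_inr, Finset.univ_eq_empty, Finset.sum_empty, add_zero]
      rw [Finset.sum_eq_single j, Pi.single_eq_same]
      · simpa using Lt_log (hl j)
      · intro i _ hij
        rw [Pi.single_eq_of_ne hij, map_zero, zero_mul]
      · intro hj; exact absurd (Finset.mem_univ j) hj

end Pool.Agent.TH577.PP
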